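import Pool.Agent.Lib.MP_e87f44_co.Main

/-!
# Hilbert series of the degree-bounded subalgebras of the cohomology of the Grassmannian

The Reiner-Tudose conjecture (problem MP_e87f44_co), in the words of the problem.
-/

set_option autoImplicit false

open Finset

namespace Pool.Agent.Results.MP_e87f44_co.HilbertSeries

/-- The degrees of the variables: `e_i` and `h_i` have degree `i`. -/
def deg (ℓ k : ℕ) : Fin ℓ ⊕ Fin k → ℕ :=
  Sum.elim (fun i => (i : ℕ) + 1) (fun j => (j : ℕ) + 1)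

/-- `e_i`, with `e_0 = 1` and `e_i = 0` for `i > ℓ`. -/
noncomputable def e (ℓ k : ℕ) : ℕ → MvPolynomial (Fin ℓ ⊕ Fin k) ℚ
  | 0 => 1
  | i + 1 => if h : i < ℓ then MvPolynomial.X (Sum.inl ⟨i, h⟩) else 0

/-- `h_j`, with `h_0 = 1` and `h_j = 0` for `j > k`. -/
noncomputable def h (ℓ k : ℕ) : ℕ → MvPolynomial (Fin ℓ ⊕ Fin k) ℚ
  | 0 => 1
  | j + 1 => if h : j < k then MvPolynomial.X (Sum.inr ⟨j, h⟩) else 0

/-- The ideal generated by the sums `∑_{i+j=n} (-1)^j e_i h_j`, `n = 1, ..., k + ℓ`. -/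
noncomputable def relations (ℓ k : ℕ) : Ideal (MvPolynomial (Fin ℓ ⊕ Fin k) ℚ) :=
  Ideal.span {p | ∃ n : ℕ, 1 ≤ n ∧ n ≤ k + ℓ ∧
    p = ∑ ij ∈ antidiagonal n, (-1) ^ ij.2 * e ℓ k ij.1 * h ℓ k ij.2}

/-- The cohomology ring `R^{ℓ,k}` of the Grassmannian. -/
abbrev Ring (ℓ k : ℕ) : Type := MvPolynomial (Fin ℓ ⊕ Fin k) ℚ ⧸ relations ℓ k

/-- The homogeneous elements of degree `d` of `R^{ℓ,k}`. -/
noncomputable def homog (ℓ k d : ℕ) : Submodule ℚ (Ring ℓ k) :=
  (MvPolynomial.weightedHomogeneousSubmodule ℚ (deg ℓ k) d).map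
    (Ideal.Quotient.mkₐ ℚ (relations ℓ k)).toLinearMap

/-- The subalgebra `R^{ℓ,k,m}` generated by all homogeneous elements of degree at most `m`. -/
noncomputable def sub (ℓ k m : ℕ) : Subalgebra ℚ (Ring ℓ k) :=
  Algebra.adjoin ℚ {x | ∃ a ≤ m, x ∈ homog ℓ k a}

/-- The Hilbert series of `R^{ℓ,k,m}`. -/
noncomputable def hilb (ℓ k m : ℕ) : PowerSeries ℕ :=
  PowerSeries.mk fun d => Module.finrank ℚ ↥((sub ℓ k m).toSubmodule ⊓ homog ℓ k d)

/-- The Gaussian binomial coefficients, by the Pascal recursion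
`[n+1, r+1] = [n, r+1] + q^(n-r) [n, r]` (and `[n, r] = 0` for `r > n`). -/
noncomputable def gauss : ℕ → ℕ → Polynomial ℕ
  | _, 0 => 1
  | 0, _ + 1 => 0
  | n + 1, r + 1 => gauss n (r + 1) + Polynomial.X ^ (n - r) * gauss n r

/-- `[ℓ, i]' = ∑_{j=0}^{ℓ-i} q^(j (k-i+1)) [i+j-1, j]`. -/
noncomputable def gauss' (ℓ k i : ℕ) : Polynomial ℕ :=
  ∑ j ∈ range (ℓ - i + 1), Polynomial.X ^ (j * (k - i + 1)) * gauss (i + j - 1) j

open Pool.Agent.Lib.RT in
private theorem iota_gauss (n r : ℕ) : iota (gauss n r) = gb PowerSeries.X n r := by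
  induction n generalizing r with
  | zero =>
    cases r with
    | zero => exact map_one _
    | succ r => exact map_zero _
  | succ n ih =>
    cases r with
    | zero => exact map_one _
    | succ r =>
      rw [gb_succ, gauss, map_add, map_mul, map_pow, iota_X, ih, ih]

open Pool.Agent.Lib.RT in
private theorem iota_inj {p q : Polynomial ℕ} (hpq : iota p = iota q) : p = q := by
  ext d
  have h1 := congrArg (PowerSeries.coeff d) hpq
  rw [coeff_iota, coeff_iota] at h1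
  exact_mod_cast h1

private theorem e_succ (ℓ k i : ℕ) : e ℓ k (i + 1) =
    if h : i < ℓ then MvPolynomial.X (Sum.inl ⟨i, h⟩) else 0 := rfl

private theorem h_succ (ℓ k j : ℕ) : h ℓ k (j + 1) =
    if h : j < k then MvPolynomial.X (Sum.inr ⟨j, h⟩) else 0 := rfl

open Pool.Agent.Lib.RT in
private theorem coeff_A0 (ℓ k n : ℕ) : (A0 ℓ k).coeff n = (-1) ^ n * e ℓ k n := by
  cases n with
  | zero =>
    rw [coeff_zero_A0, pow_zero, one_mul]
    rfl
  | succ n =>
    unfold A0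
    rw [e_succ, Polynomial.coeff_add, Polynomial.coeff_one, if_neg (by omega), zero_add,
      Polynomial.finsetSum_coeff]
    by_cases hn : n < ℓ
    · rw [dif_pos hn, Finset.sum_eq_single (⟨n, hn⟩ : Fin ℓ)]
      · rw [Polynomial.coeff_C_mul_X_pow, if_pos rfl]
      · intro j _ hj
        rw [Polynomial.coeff_C_mul_X_pow, if_neg]
        intro h1
        exact hj (Fin.ext (by simp only []; omega))
      · intro h1
        exact absurd (Finset.mem_univ _) h1
    · rw [dif_neg hn, mul_zero]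
      refine Finset.sum_eq_zero fun j _ => ?_
      rw [Polynomial.coeff_C_mul_X_pow, if_neg]
      intro h1
      have := j.isLt
      omega

open Pool.Agent.Lib.RT in
private theorem coeff_B0 (ℓ k n : ℕ) : (B0 ℓ k).coeff n = h ℓ k n := by
  cases n with
  | zero =>
    rw [coeff_zero_B0]
    rfl
  | succ n =>
    unfold B0
    rw [h_succ, Polynomial.coeff_add, Polynomial.coeff_one, if_neg (by omega), zero_add,
      Polynomial.finsetSum_coeff]
    by_cases hn : n < k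
    · rw [dif_pos hn, Finset.sum_eq_single (⟨n, hn⟩ : Fin k)]
      · rw [Polynomial.coeff_C_mul_X_pow, if_pos rfl]
      · intro j _ hj
        rw [Polynomial.coeff_C_mul_X_pow, if_neg]
        intro h1
        exact hj (Fin.ext (by simp only []; omega))
      · intro h1
        exact absurd (Finset.mem_univ _) h1
    · rw [dif_neg hn]
      refine Finset.sum_eq_zero fun j _ => ?_
      rw [Polynomial.coeff_C_mul_X_pow, if_neg]
      intro h1
      have := j.isLt
      omega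

private theorem e_eq_zero {ℓ k i : ℕ} (hi : ℓ < i) : e ℓ k i = 0 := by
  cases i with
  | zero => omega
  | succ i =>
    rw [e_succ, dif_neg (by omega)]

private theorem h_eq_zero {ℓ k j : ℕ} (hj : k < j) : h ℓ k j = 0 := by
  cases j with
  | zero => omega
  | succ j =>
    rw [h_succ, dif_neg (by omega)]

open Pool.Agent.Lib.RT in
private theorem coeff_AB (ℓ k n : ℕ) : (A0 ℓ k * B0 ℓ k).coeff n =
    (-1) ^ n * ∑ ij ∈ antidiagonal n, (-1) ^ ij.2 * e ℓ k ij.1 * h ℓ k ij.2 := by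
  rw [Polynomial.coeff_mul, Finset.mul_sum]
  refine Finset.sum_congr rfl fun ij hij => ?_
  rw [Finset.HasAntidiagonal.mem_antidiagonal] at hij
  rw [coeff_A0, coeff_B0, ← hij, pow_add]
  have h1 : ((-1 : MvPolynomial (Fin ℓ ⊕ Fin k) ℚ) ^ ij.2) * (-1) ^ ij.2 = 1 := by
    rw [← mul_pow]
    norm_num
  linear_combination (-((-1) ^ ij.1 * e ℓ k ij.1 * h ℓ k ij.2)) * h1

open Pool.Agent.Lib.RT in
private theorem relations_eq (ℓ k : ℕ) : relations ℓ k = relI ℓ k := by
  apply le_antisymm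
  · unfold relations
    rw [Ideal.span_le]
    rintro _ ⟨n, hn1, -, rfl⟩
    have h1 : (A0 ℓ k * B0 ℓ k).coeff n ∈ relI ℓ k := Ideal.subset_span ⟨n, hn1, rfl⟩
    rw [coeff_AB] at h1
    have h2 := Ideal.mul_mem_left (relI ℓ k) ((-1) ^ n) h1
    rw [← mul_assoc, ← mul_pow] at h2
    norm_num at h2
    exact h2
  · unfold relI
    rw [Ideal.span_le]
    rintro _ ⟨n, hn1, rfl⟩
    rw [SetLike.mem_coe, coeff_AB]
    by_cases hn : n ≤ k + ℓ
    · exact Ideal.mul_mem_left _ _ (Ideal.subset_span ⟨n, hn1, hn, rfl⟩)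
    · rw [Finset.sum_eq_zero, mul_zero]
      · exact Ideal.zero_mem _
      · intro ij hij
        rw [Finset.HasAntidiagonal.mem_antidiagonal] at hij
        by_cases h1 : ℓ < ij.1
        · rw [e_eq_zero h1, mul_zero, zero_mul]
        · rw [h_eq_zero (by omega : k < ij.2), mul_zero]

/-- **The Reiner-Tudose conjecture**: for all `ℓ`, `k` and `m ≤ min (k, ℓ)` the Hilbert series of
`R^{ℓ,k,m}` is `1 + ∑_{i=1}^m q^i [k, i] [ℓ, i]'`. -/
theorem result (ℓ k m : ℕ) (hm : m ≤ min k ℓ) :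
    hilb ℓ k m = ((1 + ∑ i ∈ Icc 1 m, Polynomial.X ^ i * gauss k i * gauss' ℓ k i :
      Polynomial ℕ) : PowerSeries ℕ) := by
  obtain ⟨qb, hqb⟩ : ∃ qb : ℕ → ℕ → Polynomial ℕ, ∀ n r : ℕ, qb n r =
      ∑ S ∈ (Finset.univ : Finset (Fin n)).powersetCard r,
        (Polynomial.X : Polynomial ℕ) ^ ((∑ s ∈ S, (s : ℕ)) - r * (r - 1) / 2) :=
    ⟨_, fun _ _ => rfl⟩
  have hg : ∀ n r, qb n r = gauss n r := fun n r =>
    iota_inj (by rw [Pool.Agent.Lib.RT.iota_qb hqb, iota_gauss])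
  have key : ∀ I : Ideal (MvPolynomial (Fin ℓ ⊕ Fin k) ℚ), I = Pool.Agent.Lib.RT.relI ℓ k →
      ∀ d : ℕ, Module.finrank ℚ ↥((Algebra.adjoin ℚ {x | ∃ a ≤ m,
          x ∈ (MvPolynomial.weightedHomogeneousSubmodule ℚ (deg ℓ k) a).map
            (Ideal.Quotient.mkₐ ℚ I).toLinearMap}).toSubmodule ⊓
        (MvPolynomial.weightedHomogeneousSubmodule ℚ (deg ℓ k) d).map
          (Ideal.Quotient.mkₐ ℚ I).toLinearMap) =
        (1 + ∑ i ∈ Finset.Icc 1 m, (Polynomial.X : Polynomial ℕ) ^ i * qb k i *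
          ∑ j ∈ Finset.range (ℓ - i + 1),
            (Polynomial.X : Polynomial ℕ) ^ (j * (k - i + 1)) * qb (i + j - 1) j).coeff d := by
    rintro _ rfl d
    rw [← Pool.Agent.Lib.RT.main qb hqb ℓ k m hm d]
    have hset : {x | ∃ a ≤ m, x ∈ (MvPolynomial.weightedHomogeneousSubmodule ℚ (deg ℓ k) a).map
          (Ideal.Quotient.mkₐ ℚ (Pool.Agent.Lib.RT.relI ℓ k)).toLinearMap} =
        {x | ∃ a : ℕ, a ≤ m ∧
          ∃ p ∈ MvPolynomial.weightedHomogeneousSubmodule ℚ (Pool.Agent.Lib.RT.ww ℓ k) a,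
            x = Ideal.Quotient.mkₐ ℚ (Pool.Agent.Lib.RT.relI ℓ k) p} := by
      ext x
      constructor
      · rintro ⟨a, ha, p, hp, rfl⟩
        exact ⟨a, ha, p, hp, rfl⟩
      · rintro ⟨a, ha, p, hp, rfl⟩
        exact ⟨a, ha, p, hp, rfl⟩
    rw [hset]
    rfl
  ext d
  rw [hilb, PowerSeries.coeff_mk, Polynomial.coeff_coe]
  have h1 := key _ (relations_eq ℓ k) d
  simp only [hg] at h1
  exact h1

end Pool.Agent.Results.MP_e87f44_co.HilbertSeries
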